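import Pool.Agent.MP_ed9623_an.H77.SpecW

/-! Bounds for a stationary solution near the centre of a chart. -/

open MeasureTheory Filter Topology Set
open scoped ContDiff

namespace Pool.Agent.MP_ed9623_an.H77

open H64

namespace Gp

theorem nm_comp {T : P → P} (hT : MeasurePreserving T volume volume) {F : P → ℝ} (hF : M2 F) :
    nm (fun p => F (T p)) = nm F := by
  unfold nm
  congr 1
  have h : AEStronglyMeasurable (fun x => F x ^ 2) (Measure.map T volume) := by
    rw [hT.map_eq]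
    exact hF.int_sq.aestronglyMeasurable
  have := integral_map hT.measurable.aemeasurable h
  rw [hT.map_eq] at this
  exact this.symm

theorem m2_comp {T : P → P} (hT : MeasurePreserving T volume volume) {F : P → ℝ} (hF : M2 F) :
    M2 fun p => F (T p) := hF.comp_measurePreserving hT

variable {x τ : P} {γ : ℝ → ℝ}

theorem back_v (hτ : τ.1 ^ 2 + τ.2 ^ 2 = 1) (u : Fin 2 → P → ℝ) (k : Fin 2) (q : P) :
    u k q = ∑ j, Rm τ j k * tv x τ γ u j (Thi x τ γ q) := by
  simp only [tv, Th_Thi hτ, Fin.sum_univ_two]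
  fin_cases k
  · simp [Rm]
    linear_combination (-u 0 q) * hτ
  · simp [Rm]
    linear_combination (-u 1 q) * hτ

theorem back_d (hτ : τ.1 ^ 2 + τ.2 ^ 2 = 1) (d : Fin 2 → Fin 2 → P → ℝ) (k l : Fin 2) (q : P) :
    d k l q = ∑ a, ∑ b, Rm τ a k * Rm τ b l * td x τ γ d a b (Thi x τ γ q) := by
  simp only [td, Th_Thi hτ, Fin.sum_univ_two]
  fin_cases k <;> fin_cases l
  · simp [Rm]
    linear_combination (-d 0 0 q * (τ.1 ^ 2 + τ.2 ^ 2 + 1)) * hτ
  · simp [Rm]
    linear_combination (-d 0 1 q * (τ.1 ^ 2 + τ.2 ^ 2 + 1)) * hτ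
  · simp [Rm]
    linear_combination (-d 1 0 q * (τ.1 ^ 2 + τ.2 ^ 2 + 1)) * hτ
  · simp [Rm]
    linear_combination (-d 1 1 q * (τ.1 ^ 2 + τ.2 ^ 2 + 1)) * hτ

/-- A sum of four terms with coefficients of size at most one. -/
theorem sum4 (c : Fin 2 → Fin 2 → ℝ) (F : Fin 2 → Fin 2 → P → ℝ) (B : ℝ)
    (hc : ∀ a b, |c a b| ≤ 1) (hF : ∀ a b, M2 (F a b) ∧ nm (F a b) ≤ B) :
    M2 (fun p => ∑ a, ∑ b, c a b * F a b p) ∧ nm (fun p => ∑ a, ∑ b, c a b * F a b p) ≤ 4 * B := by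
  have h1 : ∀ a b, M2 fun p => c a b * F a b p := fun a b => (hF a b).1.cmul _
  have h2 : ∀ a b, nm (fun p => c a b * F a b p) ≤ B := fun a b => by
    rw [nm_cmul]
    exact (mul_le_of_le_one_left (nm_nonneg _) (hc a b)).trans (hF a b).2
  simp only [Fin.sum_univ_two]
  refine ⟨((h1 0 0).add (h1 0 1)).add ((h1 1 0).add (h1 1 1)), ?_⟩
  have a1 := nm_add_le ((h1 0 0).add (h1 0 1)) ((h1 1 0).add (h1 1 1))
  have a2 := nm_add_le (h1 0 0) (h1 0 1)
  have a3 := nm_add_le (h1 1 0) (h1 1 1)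
  have := h2 0 0
  have := h2 0 1
  have := h2 1 0
  have := h2 1 1
  linarith

/-- The stationary system read in a chart. -/
theorem p2_chart (hTh : ThS) (hTr : TransS) {Ω : Set P} {σ r R : ℝ} (hC : Ch Ω x τ γ σ r)
    {u f : Fin 2 → P → ℝ} {du : Fin 2 → Fin 2 → P → ℝ}
    (h : P2 (fun _ => 0) 1 Ω univ R u du f) :
    P2 γ 1 (Qp σ r) (Q r) (4 * R) (tv x τ γ u) (td x τ γ du) (tv x τ γ f) := by
  obtain ⟨t1, t2, -, -, t5, t6⟩ := hTr x τ γ hC.un hC.gam
  obtain ⟨-, -, -, -, s5, -⟩ := hTh x τ γ hC.un hC.gam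
  have R0 : 0 ≤ R := (nm_nonneg _).trans (h.mf 0).2
  refine ⟨(t2 u du h.vf).1, (t2 u du h.vf).2 R h.nb, fun j => ?_, fun j => ?_, fun θ hθ => ?_⟩
  · obtain ⟨a, b⟩ := (t1 f).1 (fun j => (h.mf j).1) j
    refine ⟨a, b.trans ?_⟩
    have := (h.mf 0).2
    have := (h.mf 1).2
    linarith
  · refine (((t1 u).2 _).1 h.van j).mono fun p hp => ⟨mem_univ _, fun hΩ => hp.2 ⟨hp.1, ?_⟩⟩
    exact (hC.mem p hp.1).1 hΩ
  · have hθ' : Test Ω fun q => θ (Thi x τ γ q) := by
      refine (s5 _ θ hθ).2.mono fun q hq => ?_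
      have := (hC.mem _ hq.1).2 hq.2
      rwa [Th_Thi hC.un] at this
    have e := h.eq _ hθ'
    obtain ⟨e1, e2, e3⟩ := t6 (perp γ θ) fun j => (hθ.perp hC.gam j).top
    unfold E2 at e ⊢
    rw [e1 f fun j => (h.mf j).1, e2 du fun j i => (h.vf.h1 j).md i,
      e3 u u (fun j => (h.vf.h1 j).m) fun j => (h.vf.h1 j).m, (t5 θ hθ.1).1]
    exact e

end Gp

open Gp

theorem rowGp : OfGp := by
  intro hMix hL1 hTh hTr Ω x τ γ σ r R hC
  have r0 := hC.r0
  obtain ⟨C₁, C10, hC₁⟩ := hL1 γ σ r (r / 2) (4 * R) hC.gam hC.s0 (by linarith) (by linarith)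
  obtain ⟨C, C0, -, m2, m3⟩ := hMix (-(r / 2)) (r / 2) (-(r / 2)) (r / 2)
  obtain ⟨G, G0, hG⟩ := hC.gam.deriv.bd
  obtain ⟨s1, s2, -, -, -, s6⟩ := hTh x τ γ hC.un hC.gam
  obtain ⟨t1, -⟩ := hTr x τ γ hC.un hC.gam
  set B : ℝ := C * (4 * |R| * (3 + G) + C₁) with hB
  have B0 : 0 ≤ B := by positivity
  refine ⟨4 * B + C₁, by positivity, fun u du f h => ?_⟩
  have R0 : 0 ≤ R := (nm_nonneg _).trans (h.mf 0).2
  rw [abs_of_nonneg R0] at hB
  have hP := p2_chart hTh hTr hC h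
  have hT := hC₁ 1 _ _ _ (by simp) hP
  refine ⟨⟨fun k => ?_, fun k l φ d hφ hv => ?_⟩,
    fun j i => (hT j i).mono Subset.rfl (by linarith)⟩
  · have key : ∀ j, ∀ᵐ p, p ∈ Q (r / 2) → |tv x τ γ u j p| ≤ B := fun j => by
      obtain ⟨g, g1, g2, g3⟩ := hT j 1
      have H := hP.vf.h1 j
      have mY := (H.md 0).add ((H.md 1).gmul hC.gam.deriv)
      filter_upwards [m3 _ _ _ _ H.m mY (H.md 1) g1 ((H.wd0 hC.gam).mono (subset_univ _))
        (H.wd1.mono (subset_univ _)) g3] with p hp hq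
      refine (hp hq).trans ?_
      rw [hB]
      apply mul_le_mul_of_nonneg_left _ C0
      have a1 := nm_add_le (H.md 0) ((H.md 1).gmul hC.gam.deriv)
      have a2 := nm_bmul (m := fun p : P => deriv γ p.1) (H.md 1) G0
        (Eventually.of_forall fun p => hG p.1)
      have a3 := (hP.nb j).1
      have a4 := (hP.nb j).2 0
      have a5 := (hP.nb j).2 1
      have a6 := mul_le_mul_of_nonneg_left a5 G0
      linarith
    filter_upwards [s2.quasiMeasurePreserving.ae (key 0), s2.quasiMeasurePreserving.ae (key 1)]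
      with q a b hq
    rw [back_v (x := x) (γ := γ) hC.un u k q, Fin.sum_univ_two]
    refine (abs_add_le _ _).trans ?_
    rw [abs_mul, abs_mul]
    have c1 := mul_le_of_le_one_left (abs_nonneg (tv x τ γ u 0 (Thi x τ γ q))) (abs_Rm hC.un 0 k)
    have c2 := mul_le_of_le_one_left (abs_nonneg (tv x τ γ u 1 (Thi x τ γ q))) (abs_Rm hC.un 1 k)
    have := a hq
    have := b hq
    linarith
  · have H := s6 φ d hφ
    set S : ℝ := nm φ + nm (d 0) + nm (d 1) with hS
    have S0 : 0 ≤ S := by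
      have := nm_nonneg φ
      have := nm_nonneg (d 0)
      have := nm_nonneg (d 1)
      linarith
    have hv' : Van (Q (r / 2))ᶜ fun p => φ (Th x τ γ p) := by
      filter_upwards [s1.quasiMeasurePreserving.ae hv] with p hp hq
      refine hp fun hh => hq ?_
      rwa [mem_preimage, Thi_Th hC.un] at hh
    have key : ∀ a b, M2 (fun p => φ (Th x τ γ p) * td x τ γ du a b p) ∧
        nm (fun p => φ (Th x τ γ p) * td x τ γ du a b p) ≤ B * S := fun a b => by
      obtain ⟨g, g1, g2, g3⟩ := hT a b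
      obtain ⟨k1, k2⟩ := m2 _ _ _ _ ((hP.vf.h1 a).md b) g1 H.m (H.md 1) g3
        (H.wd1.mono (subset_univ _))
      have e : (Bx (-(r / 2)) (r / 2) (-(r / 2)) (r / 2)).indicator
          (fun p => φ (Th x τ γ p) * td x τ γ du a b p) =ᵐ[volume]
          fun p => φ (Th x τ γ p) * td x τ γ du a b p := by
        filter_upwards [hv'] with p hp
        by_cases hq : p ∈ Q (r / 2)
        · exact indicator_of_mem hq _
        · rw [indicator_of_notMem (show p ∉ Bx _ _ _ _ from hq), hp hq, zero_mul]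
      refine ⟨k1.congr e, ?_⟩
      rw [← nm_congr e]
      refine k2.trans ?_
      rw [hB, mul_assoc]
      apply mul_le_mul_of_nonneg_left _ C0
      have a1 := (hP.nb a).2 b
      have a2 := ((t1 d).1 hφ.md 1).2
      rw [nm_comp s1 hφ.m]
      have a3 : 0 ≤ 4 * R * (2 + G) := by positivity
      apply mul_le_mul (by linarith) (by linarith)
        (add_nonneg (nm_nonneg _) (nm_nonneg _)) (by positivity)
    have key2 := sum4 (fun a b => Rm τ a k * Rm τ b l)
      (fun a b q => φ (Th x τ γ (Thi x τ γ q)) * td x τ γ du a b (Thi x τ γ q)) (B * S)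
      (fun a b => by
        rw [abs_mul]
        exact mul_le_one₀ (abs_Rm hC.un a k) (abs_nonneg _) (abs_Rm hC.un b l))
      (fun a b => ⟨m2_comp s2 (key a b).1, (nm_comp s2 (key a b).1).trans_le (key a b).2⟩)
    have e : (fun q => φ q * du k l q) = fun q => ∑ a, ∑ b, Rm τ a k * Rm τ b l *
        (φ (Th x τ γ (Thi x τ γ q)) * td x τ γ du a b (Thi x τ γ q)) := by
      funext q
      rw [back_d (x := x) (γ := γ) hC.un du k l q, Th_Thi hC.un]
      simp only [Fin.sum_univ_two]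
      ring
    rw [e]
    refine ⟨key2.1, key2.2.trans ?_⟩
    have := mul_nonneg C10 S0
    nlinarith

end Pool.Agent.MP_ed9623_an.H77
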