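import Pool.Agent.MP_ed9623_an.H77.SpecZ

/-! Regular representatives. -/

open MeasureTheory Filter Topology Set
open scoped ContDiff

namespace Pool.Agent.MP_ed9623_an.H77

open H64

namespace Rep

/-- Uniform convergence on the support of a test function. -/
theorem tendsto_int {ι : Type} {l : Filter ι} {f : ι → P → ℝ} {F φ : P → ℝ} {O : Set P}
    (hφ : Test O φ) (hf : ∀ n, Continuous (f n)) (hF : Continuous F)
    (h : TendstoUniformlyOn f F l (tsupport φ)) :
    Tendsto (fun n => ∫ x, f n x * φ x) l (𝓝 (∫ x, F x * φ x)) := by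
  have iφ : Integrable fun x => |φ x| := (hφ.ct.integrable_of_hasCompactSupport hφ.2.1).abs
  have i1 : ∀ g : P → ℝ, Continuous g → Integrable fun x => g x * φ x := fun g hg =>
    (hg.mul hφ.ct).integrable_of_hasCompactSupport hφ.2.1.mul_left
  set A := ∫ x, |φ x| with hA
  have A0 : 0 ≤ A := integral_nonneg fun _ => abs_nonneg _
  rw [Metric.tendsto_nhds]
  intro ε hε
  filter_upwards [Metric.tendstoUniformlyOn_iff.1 h (ε / (A + 1)) (by positivity)] with n hn
  rw [Real.dist_eq, ← integral_sub (i1 _ (hf n)) (i1 _ hF)]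
  have : |∫ x, (f n x * φ x - F x * φ x)| ≤ ∫ x, ε / (A + 1) * |φ x| := by
    rw [← Real.norm_eq_abs]
    refine norm_integral_le_of_norm_le (iφ.const_mul _) (Eventually.of_forall fun x => ?_)
    rw [← sub_mul, Real.norm_eq_abs, abs_mul]
    by_cases hx : x ∈ tsupport φ
    · refine mul_le_mul_of_nonneg_right ?_ (abs_nonneg _)
      rw [abs_sub_comm]
      exact (hn x hx).le
    · rw [image_eq_zero_of_notMem_tsupport hx]
      simp
  rw [integral_const_mul] at this
  refine this.trans_lt ?_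
  rw [← hA, div_mul_eq_mul_div, div_lt_iff₀ (by positivity)]
  nlinarith

theorem part1 (hA : RepAS) (hB : RepBS) (a b c d a' b' d' t₀ : ℝ) (k : ℕ) (W : ℝ → L)
    (ha : a < a') (hb : b' < b) (hd : d' < d) (hW : ContDiff ℝ ∞ W)
    (hR : Rg {t₀} (Bx a b c d) (k + 3) W) : ∃ F : ST → ℝ, ContDiff ℝ k F ∧
      ∀ᶠ t in 𝓝 t₀, ∀ᵐ p, p ∈ Bx a' b' c d' → F (t, p) = W t p := by
  obtain ⟨f, M, f1, f2, f3⟩ := hA a b c d a' b' d' t₀ (k + 1) W ha hb hd hW hR
  obtain ⟨F, l, F1, hl, F2⟩ := hB c M k f f1 f2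
  refine ⟨F, F1, ?_⟩
  filter_upwards [f3] with t ht
  have cF : Continuous fun p : P => F (t, p) := F1.continuous.comp (by fun_prop)
  have key := van_of_int (f := fun p => F (t, p) - W t p) (isOpen_Bx a' b' c d')
    (cF.locallyIntegrable.sub (M2.coe (W t)).loc) fun φ hφ => by
      have o : IsOpen {z : ST | c < z.2.2} := isOpen_lt continuous_const (by fun_prop)
      have u := (tendstoLocallyUniformlyOn_iff_forall_isCompact o).1 F2
        ((fun p : P => ((t, p) : ST)) '' tsupport φ)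
        (by
          rintro _ ⟨p, hp, rfl⟩
          exact (hφ.2.2 hp).2.1)
        (hφ.2.1.isCompact.image (by fun_prop))
      have u2 : TendstoUniformlyOn (fun n (p : P) => f n (t, p)) (fun p => F (t, p)) l
          (tsupport φ) := (u.comp fun p : P => ((t, p) : ST)).mono (subset_preimage_image _ _)
      have h1 := tendsto_int hφ (fun n => (f1 n).continuous.comp (by fun_prop)) cF u2
      have h2 := tendsto_nhds_unique h1 ((ht φ hφ).mono_left hl)
      have i1 : Integrable fun x : P => F (t, x) * φ x :=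
        (cF.mul hφ.ct).integrable_of_hasCompactSupport hφ.2.1.mul_left
      simp only [sub_mul]
      rw [integral_sub i1 ((M2.coe (W t)).int_mul hφ.m2), h2, sub_self]
  exact Filter.Eventually.mono key fun p a hp => sub_eq_zero.1 (a hp)

end Rep

theorem rowRep : OfRep := by
  intro hA hB
  refine ⟨Rep.part1 hA hB, fun r r' t₀ W hr hW hR => ?_⟩
  obtain ⟨r₁, h1, h2⟩ := exists_between hr
  have key : ∀ (k : ℕ) (t : ℝ), ∃ F : ST → ℝ, ContDiff ℝ k F ∧
      ∀ᶠ s in 𝓝 t, ∀ᵐ p, p ∈ Q r₁ → F (s, p) = W s p := fun k t => by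
    obtain ⟨F, F1, F2⟩ := Rep.part1 hA hB (-r) r (-r) r (-r₁) r₁ r₁ t k W (by linarith) h2 h2 hW
      fun m s _ => hR (k + 3) m s (mem_univ _)
    refine ⟨F, F1, F2.mono fun s hs => Filter.Eventually.mono hs fun p a hp => a ?_⟩
    exact ⟨hp.1, by linarith [hp.2.1], hp.2.2⟩
  obtain ⟨F₀, c0, e0⟩ := key 0 t₀
  obtain ⟨δ, δ0, hδ⟩ := Metric.eventually_nhds_iff_ball.1 e0
  have sm : ∀ z : ST, z.1 ∈ Metric.ball t₀ δ → z.2 ∈ Q r₁ → ContDiffAt ℝ ∞ F₀ z := by
    intro z z1 z2
    refine contDiffAt_infty.2 fun k => ?_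
    obtain ⟨F, F1, F2⟩ := key k z.1
    refine F1.contDiffAt.congr_of_eventuallyEq ?_
    have a1 : ∀ᶠ y : ST in 𝓝 z, y.1 ∈ Metric.ball t₀ δ :=
      continuous_fst.continuousAt.eventually (Metric.isOpen_ball.mem_nhds z1)
    have a2 : ∀ᶠ y : ST in 𝓝 z, y.2 ∈ Q r₁ :=
      continuous_snd.continuousAt.eventually ((isOpen_Q r₁).mem_nhds z2)
    filter_upwards [a1, a2, continuous_fst.continuousAt.eventually F2] with y y1 y2 y3
    refine Measure.eqOn_open_of_ae_eq (μ := volume) (f := fun p : P => F₀ (y.1, p))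
      (g := fun p : P => F (y.1, p)) ?_ (isOpen_Q r₁)
      (c0.continuous.comp (by fun_prop)).continuousOn
      (F1.continuous.comp (by fun_prop)).continuousOn y2
    rw [EventuallyEq, ae_restrict_iff' (isOpen_Q r₁).measurableSet]
    filter_upwards [hδ _ y1, y3] with p b1 b2 hp
    rw [b1 hp, b2 hp]
  obtain ⟨χ, χ1, -, χ2⟩ := exists_cut (isCompact_closedBall (0 : P) r') (isOpen_Q r₁) (by
    rw [Q_eq_ball]
    exact Metric.closedBall_subset_ball h1)
  let β : ContDiffBump t₀ := ⟨δ / 3, δ / 2, by linarith, by linarith⟩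
  refine ⟨fun z => β z.1 * χ z.2 * F₀ z, contDiff_iff_contDiffAt.2 fun z => ?_, ?_⟩
  · by_cases hz : z ∈ tsupport fun z : ST => β z.1 * χ z.2 * F₀ z
    swap
    · exact contDiffAt_const.congr_of_eventuallyEq (notMem_tsupport_iff_eventuallyEq.1 hz)
    have : z ∈ tsupport β ×ˢ tsupport χ := by
      refine closure_minimal (fun y hy => ?_) ((isClosed_tsupport _).prod (isClosed_tsupport _)) hz
      exact ⟨subset_tsupport _ (left_ne_zero_of_mul (left_ne_zero_of_mul hy)),
        subset_tsupport _ (right_ne_zero_of_mul (left_ne_zero_of_mul hy))⟩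
    refine ((β.contDiff.comp contDiff_fst).mul (χ1.1.comp contDiff_snd)).contDiffAt.mul
      (sm z ?_ (χ1.2.2 this.2))
    have h3 := this.1
    rw [β.tsupport_eq] at h3
    exact Metric.closedBall_subset_ball (show δ / 2 < δ by linarith) h3
  · filter_upwards [e0, β.eventuallyEq_one] with t a b
    refine Filter.Eventually.mono a fun p c hp => ?_
    have h4 : χ p = 1 := χ2.self_of_nhdsSet p (by
      rw [Q_eq_ball] at hp
      exact Metric.ball_subset_closedBall hp)
    simp only [b, h4, Pi.one_apply, one_mul]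
    exact c (Q_mono h1.le hp)

end Pool.Agent.MP_ed9623_an.H77
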